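import Pool.Agent.Run7.h520.PgramMain

/-!
# Every parallelogram has property (S)

`pgram c A B` is the parallelogram `{c + s A + t B : |s| ≤ 1, |t| ≤ 1}`.  For every layer whose
members are all similar to it (rotations, reflections and dilations of every ratio are allowed)
there is a layer of its translates with a permeability which is at most that of the given layer.
-/

namespace Pool.Agent.Results.MP_9c589f_co.ParallelogramS

open Run7.h520

theorem result (c A B : Plane) (h : LinearIndependent ℝ ![A, B]) :
    PropertyS (pgram c A B) :=
  pgram_propertyS h c

end Pool.Agent.Results.MP_9c589f_co.ParallelogramS
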